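import Mathlib
import Pool.Graph.R_seed8.Results.MP_954e53_ag.TorusFixedPoint

/-!
# Extremal parts of multigraded rings
-/

set_option autoImplicit false
set_option linter.unusedSectionVars false

namespace Pool.Agent.H895.CR

open DirectSum
open Pool.Agent.Results.MP_954e53_ag.TorusFixedPoint (InDeg InvDeg comp_of_mem eq_of_mem comp_add
  comp_sum comp_map inDeg_of_mem inDeg_sum)

variable {k R Λ Γ : Type} [Field k] [CommRing R] [Algebra k R] [AddCommGroup Λ] [DecidableEq Λ]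
  [AddCommGroup Γ] [LinearOrder Γ] [IsOrderedAddMonoid Γ]

/-- the inclusion of the weight spaces with `ψ u = 0` -/
def pf (𝒜 : Λ → Submodule k R) (ψ : Λ →+ Γ) (u : Λ) : 𝒜 u →ₗ[k] R :=
  if ψ u = 0 then (𝒜 u).subtype else 0

theorem pf_apply (𝒜 : Λ → Submodule k R) (ψ : Λ →+ Γ) (u : Λ) (x : 𝒜 u) :
    pf 𝒜 ψ u x = if ψ u = 0 then (x : R) else 0 := by
  unfold pf
  split_ifs <;> rfl

theorem pf_one (𝒜 : Λ → Submodule k R) [GradedAlgebra 𝒜] (ψ : Λ →+ Γ) :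
    pf 𝒜 ψ 0 (GradedMonoid.GOne.one (A := fun u => 𝒜 u)) = 1 := by
  rw [pf_apply, if_pos (map_zero ψ)]
  rfl

theorem pf_mul (𝒜 : Λ → Submodule k R) [GradedAlgebra 𝒜] (ψ : Λ →+ Γ)
    (hψ : ∀ u, ∀ x ∈ 𝒜 u, x ≠ 0 → 0 ≤ ψ u) {u v : Λ} (x : 𝒜 u) (y : 𝒜 v) :
    pf 𝒜 ψ (u + v) (GradedMonoid.GMul.mul (A := fun u => 𝒜 u) x y) = pf 𝒜 ψ u x * pf 𝒜 ψ v y := by
  rw [pf_apply, pf_apply, pf_apply]
  have h0 : ((GradedMonoid.GMul.mul (A := fun u => 𝒜 u) x y : 𝒜 (u + v)) : R) = x * y := rfl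
  rw [h0]
  by_cases hx : (x : R) = 0
  · rw [hx]; simp
  by_cases hy : (y : R) = 0
  · rw [hy]; simp
  have hu := hψ u _ x.2 hx
  have hv := hψ v _ y.2 hy
  rw [map_add]
  by_cases h1 : ψ u = 0
  · by_cases h2 : ψ v = 0
    · rw [if_pos h1, if_pos h2, if_pos (by rw [h1, h2, add_zero])]
    · rw [if_neg h2, if_neg (by rw [h1, zero_add]; exact h2)]; simp
  · have h2 : 0 < ψ u + ψ v := add_pos_of_pos_of_nonneg (lt_of_le_of_ne hu (Ne.symm h1)) hv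
    rw [if_neg h1, if_neg h2.ne']; simp

/-- projection of `R` onto the part of `ψ`-weight zero -/
noncomputable def proj (𝒜 : Λ → Submodule k R) [GradedAlgebra 𝒜] (ψ : Λ →+ Γ)
    (hψ : ∀ u, ∀ x ∈ 𝒜 u, x ≠ 0 → 0 ≤ ψ u) : R →ₐ[k] R :=
  (DirectSum.toAlgebra k (fun u => 𝒜 u) (pf 𝒜 ψ) (pf_one 𝒜 ψ)
    (fun {_ _} x y => pf_mul 𝒜 ψ hψ x y)).comp (decomposeAlgEquiv 𝒜).toAlgHom

theorem proj_of_mem (𝒜 : Λ → Submodule k R) [GradedAlgebra 𝒜] (ψ : Λ →+ Γ)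
    (hψ : ∀ u, ∀ x ∈ 𝒜 u, x ≠ 0 → 0 ≤ ψ u) {u : Λ} {x : R} (hx : x ∈ 𝒜 u) :
    proj 𝒜 ψ hψ x = if ψ u = 0 then x else 0 := by
  have h1 : decompose 𝒜 x = DirectSum.of (fun u => 𝒜 u) u ⟨x, hx⟩ := decompose_of_mem 𝒜 hx
  show DirectSum.toAlgebra k (fun u => 𝒜 u) (pf 𝒜 ψ) (pf_one 𝒜 ψ)
    (fun {_ _} x y => pf_mul 𝒜 ψ hψ x y) (decompose 𝒜 x) = _
  rw [h1]
  have h2 := DirectSum.toSemiring_of (fun i => (pf 𝒜 ψ i).toAddMonoidHom) (pf_one 𝒜 ψ)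
    (fun {_ _} x y => pf_mul 𝒜 ψ hψ x y) u ⟨x, hx⟩
  exact h2.trans (pf_apply 𝒜 ψ u ⟨x, hx⟩)

theorem comp_proj (𝒜 : Λ → Submodule k R) [GradedAlgebra 𝒜] (ψ : Λ →+ Γ)
    (hψ : ∀ u, ∀ x ∈ 𝒜 u, x ≠ 0 → 0 ≤ ψ u) (x : R) (u : Λ) :
    ((decompose 𝒜 (proj 𝒜 ψ hψ x) u : 𝒜 u) : R) =
      if ψ u = 0 then ((decompose 𝒜 x u : 𝒜 u) : R) else 0 := by
  classical
  have hx : x = ∑ v ∈ (decompose 𝒜 x).support, ((decompose 𝒜 x v : 𝒜 v) : R) :=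
    (sum_support_decompose 𝒜 x).symm
  have h1 : proj 𝒜 ψ hψ x = ∑ v ∈ (decompose 𝒜 x).support,
      (if ψ v = 0 then ((decompose 𝒜 x v : 𝒜 v) : R) else 0) := by
    conv_lhs => rw [hx]
    rw [map_sum]
    exact Finset.sum_congr rfl (fun v _ => proj_of_mem 𝒜 ψ hψ (decompose 𝒜 x v).2)
  rw [h1, comp_sum]
  have h2 : ∀ v ∈ (decompose 𝒜 x).support,
      ((decompose 𝒜 (if ψ v = 0 then ((decompose 𝒜 x v : 𝒜 v) : R) else 0) u : 𝒜 u) : R) =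
        if v = u then (if ψ u = 0 then ((decompose 𝒜 x u : 𝒜 u) : R) else 0) else 0 := by
    intro v _
    by_cases hv : ψ v = 0
    · rw [if_pos hv, comp_of_mem 𝒜 (decompose 𝒜 x v).2 u]
      by_cases hvu : v = u
      · subst hvu; rw [if_pos rfl, if_pos rfl, if_pos hv]
      · rw [if_neg hvu, if_neg hvu]
    · rw [if_neg hv]
      by_cases hvu : v = u
      · subst hvu; rw [if_pos rfl, if_neg hv]; simp
      · rw [if_neg hvu]; simp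
  rw [Finset.sum_congr rfl h2, Finset.sum_ite_eq']
  by_cases h3 : u ∈ (decompose 𝒜 x).support
  · rw [if_pos h3]
  · rw [if_neg h3]
    have h4 : (decompose 𝒜 x u) = 0 := by
      simpa [DFinsupp.mem_support_toFun] using h3
    rw [h4]; simp

/-- an element all whose nonzero components have the weight `u` lies in `𝒜 u` -/
theorem mem_of_comp (𝒜 : Λ → Submodule k R) [GradedAlgebra 𝒜] {x : R} {u : Λ}
    (h : ∀ w, w ≠ u → ((decompose 𝒜 x w : 𝒜 w) : R) = 0) : x ∈ 𝒜 u := by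
  classical
  have hx : x = ∑ v ∈ (decompose 𝒜 x).support, ((decompose 𝒜 x v : 𝒜 v) : R) :=
    (sum_support_decompose 𝒜 x).symm
  rw [hx]
  refine Submodule.sum_mem _ fun v _ => ?_
  by_cases hv : v = u
  · rw [hv]; exact (decompose 𝒜 x u).2
  · rw [h v hv]; exact Submodule.zero_mem _

/-- the projection of an invariant element of degree `n` is its component of weight `n • v` -/
theorem proj_inv (𝒜 : Λ → Submodule k R) [GradedAlgebra 𝒜] (ψ : Λ →+ Γ)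
    (hψ : ∀ u, ∀ x ∈ 𝒜 u, x ≠ 0 → 0 ≤ ψ u) {deg : Λ →+ ℤ}
    (hinj : ∀ u, ψ u = 0 → deg u = 0 → u = 0) {v : Λ} (hv : ψ v = 0) (hv1 : deg v = 1)
    {n : ℕ} {x : R} (hx : InDeg 𝒜 deg n x) :
    proj 𝒜 ψ hψ x = ((decompose 𝒜 x (n • v) : 𝒜 (n • v)) : R) := by
  have h1 : ∀ w, w ≠ n • v → ((decompose 𝒜 (proj 𝒜 ψ hψ x) w : 𝒜 w) : R) = 0 := by
    intro w hw
    rw [comp_proj]
    split_ifs with h
    · by_contra hne
      have h2 := hx w hne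
      apply hw
      have h3 := hinj (w - n • v) (by rw [map_sub, map_nsmul, h, hv, smul_zero, sub_zero])
        (by rw [map_sub, map_nsmul, h2, hv1]; simp)
      exact sub_eq_zero.1 h3
    · rfl
  have h2 := mem_of_comp 𝒜 h1
  have h3 := comp_of_mem 𝒜 h2 (n • v)
  rw [if_pos rfl, comp_proj, if_pos (by rw [map_nsmul, hv, smul_zero])] at h3
  exact h3.symm

end Pool.Agent.H895.CR
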