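import Mathlib

/-!
# Lüroth's theorem for subfields of simple transcendental extensions
-/

set_option autoImplicit false

namespace Pool.Agent.H895.CR

open Polynomial IntermediateField

theorem luroth {k K : Type} [Field k] [Field K] [Algebra k K] {τ : K} (hτ : Transcendental k τ)
    (E : IntermediateField k K) (hE : E ≤ k⟮τ⟯) :
    E = ⊥ ∨ ∃ t : K, Transcendental k t ∧ E = k⟮t⟯ := by
  let e : RatFunc k ≃ₐ[k] k⟮τ⟯ := RatFunc.algEquivOfTranscendental τ hτ
  let ψ : RatFunc k →ₐ[k] K := (k⟮τ⟯).val.comp e.toAlgHom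
  have hr : E ≤ ψ.fieldRange := by
    intro x hx
    refine ⟨e.symm ⟨x, hE hx⟩, ?_⟩
    change ((e (e.symm ⟨x, hE hx⟩) : k⟮τ⟯) : K) = x
    rw [AlgEquiv.apply_symm_apply]
  let E' : IntermediateField k (RatFunc k) := E.comap ψ
  have hEE : E'.map ψ = E := by
    apply le_antisymm
    · rintro _ ⟨x, hx, rfl⟩
      exact hx
    · intro x hx
      obtain ⟨y, rfl⟩ := hr hx
      exact ⟨y, hx, rfl⟩
  by_cases h : E' = ⊥
  · left
    rw [← hEE, h, IntermediateField.map_bot]
  · right
    refine ⟨ψ (RatFunc.Luroth.generator E'), ?_, ?_⟩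
    · have h1 := RatFunc.Luroth.transcendental_generator h
      exact fun h2 => h1 ((isAlgebraic_algHom_iff ψ ψ.injective).1 h2)
    · rw [← hEE]
      conv_lhs => rw [RatFunc.Luroth.eq_adjoin_generator (E := E')]
      rw [IntermediateField.adjoin_map, Set.image_singleton]

end Pool.Agent.H895.CR
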