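import Pool.Agent.H895.CR.Large
import Pool.Agent.H895.CR.Lur

/-!
# Sections of degree one from an extremal rational curve
-/

set_option autoImplicit false
set_option linter.unusedSectionVars false

namespace Pool.Agent.H895.CR

open DirectSum Polynomial IntermediateField
open Pool.Agent.Results.MP_954e53_ag.TorusFixedPoint (InDeg InvDeg comp_of_mem eq_of_mem comp_add
  comp_sum comp_map inDeg_of_mem inDeg_sum)

variable {k R Λ : Type} [Field k] [CommRing R] [Algebra k R] [AddCommGroup Λ] [DecidableEq Λ]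

/-- The `n`-th power of the sheaf is generated by invariant sections: the invariant elements of
degree `n` have no common zero on `Proj R`. -/
def Gen (𝒜 : Λ → Submodule k R) [GradedAlgebra 𝒜] (deg : Λ →+ ℤ) {G : Type} [Group G]
    (φ : G →* (R ≃ₐ[k] R)) (n : ℕ) : Prop :=
  ∀ u, 0 < deg u → ∀ x ∈ 𝒜 u, x ∈ (Ideal.span {a : R | InvDeg 𝒜 deg φ n a}).radical

section

variable {G : Type} [Group G] {𝒜 : Λ → Submodule k R} [GradedAlgebra 𝒜] {φ : G →* (R ≃ₐ[k] R)}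
  {α : G → (Λ ≃+ Λ)} {v : Λ} {K : Type} [Field K] [Algebra R K] [IsDomain R] [IsFractionRing R K]
  [Algebra k K] [IsScalarTower k R K]
  {Γ : Type} [AddCommGroup Γ] [LinearOrder Γ] [IsOrderedAddMonoid Γ]

/-- a nonzero semi-invariant of degree one gives a nonzero invariant of degree one -/
theorem exists_sum [Finite G] {deg : Λ →+ ℤ} (hφ : ∀ g u, ∀ x ∈ 𝒜 u, φ g x ∈ 𝒜 (α g u))
    (hα : ∀ g u, deg (α g u) = deg u) (hv1 : deg v = 1) {z : R} (hz : z ∈ Sp 𝒜 φ α v 1)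
    (hz0 : z ≠ 0) : ∃ s : R, InvDeg 𝒜 deg φ 1 s ∧ ((decompose 𝒜 s v : 𝒜 v) : R) ≠ 0 := by
  classical
  have _ := Fintype.ofFinite G
  have hzv : z ∈ 𝒜 v := by simpa using hz.1
  let T : Finset R := Finset.univ.image fun g => φ g z
  have hT : ∀ w ∈ T, ∃ g, φ g z = w := fun w hw => by
    obtain ⟨g, -, hg⟩ := Finset.mem_image.1 hw
    exact ⟨g, hg⟩
  refine ⟨∑ w ∈ T, w, ⟨?_, ?_⟩, ?_⟩
  rotate_left 2
  · have h1 : ((decompose 𝒜 (∑ w ∈ T, w) v : 𝒜 v) : R) = z := by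
      rw [comp_sum, Finset.sum_eq_single z]
      · exact decompose_of_mem_same 𝒜 hzv
      · intro w hw hwz
        obtain ⟨g, rfl⟩ := hT w hw
        rw [comp_of_mem 𝒜 (hφ g v z hzv) v]
        split_ifs with h
        · exact absurd (hz.2 g h) hwz
        · rfl
      · intro hzT
        exact absurd (Finset.mem_image.2 ⟨1, Finset.mem_univ _, by rw [map_one]; rfl⟩) hzT
    rw [h1]
    exact hz0
  · apply inDeg_sum
    intro w hw
    obtain ⟨g, rfl⟩ := hT w hw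
    have h1 := inDeg_of_mem 𝒜 deg (hφ g v z hzv)
    rw [hα, hv1] at h1
    exact h1
  · intro h
    rw [map_sum]
    refine Finset.sum_bij (fun w _ => φ h w) ?_ ?_ ?_ ?_
    · intro w hw
      obtain ⟨g, rfl⟩ := hT w hw
      exact Finset.mem_image.2 ⟨h * g, Finset.mem_univ _, by rw [map_mul]; rfl⟩
    · intro a _ b _ hab
      exact (φ h).injective hab
    · intro w hw
      obtain ⟨g, rfl⟩ := hT w hw
      refine ⟨φ (h⁻¹ * g) z, Finset.mem_image.2 ⟨_, Finset.mem_univ _, rfl⟩, ?_⟩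
      have h2 : φ h (φ (h⁻¹ * g) z) = φ (h * (h⁻¹ * g)) z := by
        rw [map_mul φ h]; rfl
      rw [h2, mul_inv_cancel_left]
    · intro w _
      rfl

/-- two sections of coprime degrees without zeros and poles -/
theorem exists_one [IsIntegrallyClosed R] {p q : ℕ} (hp : 0 < p) (hq : 0 < q)
    (hpq : Nat.Coprime p q)
    {y y' : K} (hy : y ∈ Fr 𝒜 φ α v K p) (hy0 : y ≠ 0) (hyi : IsIntegral R y)
    (hy' : y' ∈ Fr 𝒜 φ α v K q) (hy0' : y' ≠ 0) {c : k} (h : y' ^ p = algebraMap k K c * y ^ q) :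
    ∃ z ∈ Sp 𝒜 φ α v 1, z ≠ 0 := by
  obtain ⟨a, b, hab⟩ : ∃ a b : ℕ, b * q = a * p + 1 := by
    rcases Nat.lt_or_ge 1 p with h1 | h1
    · obtain ⟨m, -, hm⟩ := Nat.exists_mul_mod_eq_one_of_coprime hpq.symm h1
      refine ⟨q * m / p, m, ?_⟩
      have := Nat.div_add_mod (q * m) p
      rw [hm] at this
      rw [mul_comm m q, mul_comm _ p]
      exact this.symm
    · have h2 : p = 1 := by omega
      exact ⟨q - 1, 1, by rw [h2]; omega⟩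
  have hz : y' ^ b / y ^ a ∈ Fr 𝒜 φ α v K 1 := by
    have h1 := Fr_pow hy' b
    rw [hab] at h1
    exact Fr_div h1 (Fr_pow hy a) (pow_ne_zero _ hy0)
  have hzp : (y' ^ b / y ^ a) ^ p = algebraMap k K (c ^ b) * y := by
    have h1 : y' ^ (b * p) = algebraMap k K (c ^ b) * y ^ (q * b) := by
      rw [mul_comm b p, pow_mul, h, mul_pow, ← pow_mul, map_pow]
    rw [div_pow, ← pow_mul, ← pow_mul, h1, div_eq_iff (pow_ne_zero _ hy0), mul_comm q b, hab,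
      pow_succ]
    ring
  have hzi : IsIntegral R (y' ^ b / y ^ a) := by
    refine IsIntegral.of_pow hp ?_
    rw [hzp, IsScalarTower.algebraMap_apply k R K]
    exact isIntegral_algebraMap.mul hyi
  obtain ⟨s, hs, hsz⟩ := Fr_int hz hzi
  refine ⟨s, hs, fun h0 => ?_⟩
  rw [h0, map_zero] at hsz
  exact div_ne_zero (pow_ne_zero _ hy0') (pow_ne_zero _ hy0) hsz.symm

/-- a linear system without base points -/
theorem exists_fam [IsNoetherianRing R] {deg : Λ →+ ℤ} {ψ : Λ →+ Γ}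
    (hψ : ∀ u, ∀ x ∈ 𝒜 u, x ≠ 0 → 0 ≤ ψ u)
    (hpt : ∃ u, ψ u = 0 ∧ 0 < deg u ∧ ∃ x ∈ 𝒜 u, x ≠ 0) {p : ℕ} (h : Gen 𝒜 deg φ p) :
    ∃ (l : ℕ) (a : Fin l → R), (∀ i, InvDeg 𝒜 deg φ p (a i)) ∧
      (∀ u, 0 < deg u → ∀ x ∈ 𝒜 u, x ∈ (Ideal.span (Set.range a)).radical) ∧
      ∃ i, proj 𝒜 ψ hψ (a i) ≠ 0 := by
  classical
  obtain ⟨s, hs, hspan⟩ := (Submodule.fg_span_iff_fg_span_finset_subset
    {a : R | InvDeg 𝒜 deg φ p a}).1 ((isNoetherianRing_iff_ideal_fg R).1 inferInstance _)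
  let a : Fin s.card → R := fun i => (s.equivFin.symm i : R)
  have hr : Set.range a = (s : Set R) := by
    ext x
    constructor
    · rintro ⟨i, rfl⟩
      exact (s.equivFin.symm i).2
    · intro hx
      exact ⟨s.equivFin ⟨x, hx⟩, by simp [a]⟩
  have hrad : ∀ u, 0 < deg u → ∀ x ∈ 𝒜 u, x ∈ (Ideal.span (Set.range a)).radical := by
    intro u hu x hx
    have h1 := h u hu x hx
    have h2 : Ideal.span {a : R | InvDeg 𝒜 deg φ p a} = Ideal.span (Set.range a) := by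
      rw [hr]; exact hspan
    rw [h2] at h1
    exact h1
  refine ⟨s.card, a, fun i => hs (s.equivFin.symm i).2, hrad, ?_⟩
  by_contra hcon
  push Not at hcon
  obtain ⟨u, hu0, hu, x, hx, hx0⟩ := hpt
  obtain ⟨m, hm⟩ := Ideal.mem_radical_iff.1 (hrad u hu x hx)
  have h1 : Ideal.span (Set.range a) ≤ RingHom.ker (proj 𝒜 ψ hψ : R →+* R) := by
    rw [Ideal.span_le]
    rintro _ ⟨i, rfl⟩
    exact hcon i
  have h2 : proj 𝒜 ψ hψ (x ^ m) = 0 := h1 hm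
  rw [map_pow, proj_of_mem 𝒜 ψ hψ hx, if_pos hu0] at h2
  exact pow_ne_zero _ hx0 h2

/-- a nonzero extremal component of an invariant element is a multiple of `v` -/
theorem exists_comp {deg : Λ →+ ℤ} {ψ : Λ →+ Γ}
    (hψ : ∀ u, ∀ x ∈ 𝒜 u, x ≠ 0 → 0 ≤ ψ u) {p : ℕ} {a : R} (ha : InDeg 𝒜 deg p a)
    (h0 : proj 𝒜 ψ hψ a ≠ 0) : ∃ u, ψ u = 0 ∧ deg u = p := by
  classical
  by_contra hcon
  push Not at hcon
  apply h0
  rw [← sum_support_decompose 𝒜 (proj 𝒜 ψ hψ a)]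
  refine Finset.sum_eq_zero fun u _ => ?_
  rw [comp_proj]
  split_ifs with h
  · by_contra hne
    exact hcon u h (ha u hne)
  · rfl

theorem proj_mem_Sp {deg : Λ →+ ℤ} {ψ : Λ →+ Γ}
    (hψ : ∀ u, ∀ x ∈ 𝒜 u, x ≠ 0 → 0 ≤ ψ u)
    (hφ : ∀ g u, ∀ x ∈ 𝒜 u, φ g x ∈ 𝒜 (α g u))
    (hinj : ∀ u, ψ u = 0 → deg u = 0 → u = 0) (hv : ψ v = 0) (hv1 : deg v = 1) {p : ℕ} {a : R}
    (ha : InvDeg 𝒜 deg φ p a) : proj 𝒜 ψ hψ a ∈ Sp 𝒜 φ α v p := by
  rw [proj_inv 𝒜 ψ hψ hinj hv hv1 ha.1]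
  refine ⟨(decompose 𝒜 a _).2, fun g hg => ?_⟩
  have h4 := comp_map 𝒜 (φ g) (α g) (hφ g) a (p • v)
  rw [ha.2 g, map_nsmul, hg] at h4
  exact h4.symm

/-- the large degrees of the extremal part -/
theorem large_ext [Algebra.FiniteType k R] {deg : Λ →+ ℤ}
    (hdeg : ∀ u, ∀ x ∈ 𝒜 u, x ≠ 0 → 0 ≤ deg u) {ψ : Λ →+ Γ}
    (hψ : ∀ u, ∀ x ∈ 𝒜 u, x ≠ 0 → 0 ≤ ψ u)
    (hφ : ∀ g u, ∀ x ∈ 𝒜 u, φ g x ∈ 𝒜 (α g u))
    (hinj : ∀ u, ψ u = 0 → deg u = 0 → u = 0) (hv : ψ v = 0) (hv1 : deg v = 1) {p l : ℕ}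
    (a : Fin l → R) (ha : ∀ i, InvDeg 𝒜 deg φ p (a i))
    (hrad : ∀ u, 0 < deg u → ∀ x ∈ 𝒜 u, x ∈ (Ideal.span (Set.range a)).radical) :
    ∃ n0 : ℕ, ∀ n, n0 ≤ n → ∀ x ∈ 𝒜 (n • v), ∃ r : Fin l → R,
      (∀ i, r i ∈ 𝒜 ((n - p) • v)) ∧ x = ∑ i, proj 𝒜 ψ hψ (a i) * r i := by
  obtain ⟨n1, hn1⟩ := exists_large 𝒜 deg hdeg _ hrad
  refine ⟨n1 + p, fun n hn x hx => ?_⟩
  have h1 : x ∈ Ideal.span (Set.range a) := by
    refine hn1 (n • v) ?_ x hx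
    rw [map_nsmul, hv1, nsmul_eq_mul, mul_one]
    exact_mod_cast (by omega : n1 ≤ n)
  obtain ⟨c, hc⟩ := Ideal.mem_span_range_iff_exists_fun.1 h1
  refine ⟨fun i => ((decompose 𝒜 (proj 𝒜 ψ hψ (c i)) ((n - p) • v) : 𝒜 ((n - p) • v)) : R),
    fun i => (decompose 𝒜 (proj 𝒜 ψ hψ (c i)) ((n - p) • v)).2, ?_⟩
  have h2 : proj 𝒜 ψ hψ x = x := by
    rw [proj_of_mem 𝒜 ψ hψ hx, if_pos (by rw [map_nsmul, hv, smul_zero])]
  have h3 : x = ∑ i, proj 𝒜 ψ hψ (a i) * proj 𝒜 ψ hψ (c i) := by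
    rw [← h2, ← hc, map_sum]
    exact Finset.sum_congr rfl fun i _ => by rw [map_mul, mul_comm]
  have h4 : ((decompose 𝒜 x (n • v) : 𝒜 (n • v)) : R) = x := decompose_of_mem_same 𝒜 hx
  conv_lhs => rw [← h4, h3, comp_sum]
  refine Finset.sum_congr rfl fun i _ => ?_
  have h5 : n • v = p • v + (n - p) • v := by
    rw [← add_smul]
    congr 1
    omega
  rw [h5]
  exact DirectSum.coe_decompose_mul_add_of_left_mem 𝒜 (b := proj 𝒜 ψ hψ (c i)) (i := p • v)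
    (j := (n - p) • v) (proj_mem_Sp hψ hφ hinj hv hv1 (ha i)).1

/-- the common part of a linear system in the field of rational functions of `t` -/
theorem exists_y [IsIntegrallyClosed R] {t : K} (ht : Transcendental k t)
    (hK : KF 𝒜 φ α v K = k⟮t⟯) {l p : ℕ} (A : Fin l → R) (hA : ∀ i, A i ∈ Sp 𝒜 φ α v p)
    (i0 : Fin l) (hi0 : A i0 ≠ 0) :
    ∃ y ∈ Fr 𝒜 φ α v K p, y ≠ 0 ∧ IsIntegral R y ∧ ∃ P : Fin l → k[X],
      (∀ i, algebraMap R K (A i) = y * aeval t (P i)) ∧ Ideal.span (Set.range P) = ⊤ := by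
  have hA0 : algebraMap R K (A i0) ≠ 0 := map_ne hi0
  have hx : ∀ i, algebraMap R K (A i) / algebraMap R K (A i0) ∈ k⟮t⟯ := by
    intro i
    rw [← hK]
    exact Fr_div (m := 0) (Fr_of (hA i)) (Fr_of (hA i0)) hA0
  obtain ⟨e, he, he0, P, hP, hspan⟩ := exists_gcd ht
    (fun i => algebraMap R K (A i) / algebraMap R K (A i0)) hx i0 (div_ne_zero hA0 hA0)
  have hyP : ∀ i, algebraMap R K (A i) = (e * algebraMap R K (A i0)) * aeval t (P i) := by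
    intro i
    have h1 := hP i
    rw [div_eq_iff hA0] at h1
    rw [h1]
    ring
  refine ⟨e * algebraMap R K (A i0), ?_, mul_ne_zero he0 hA0, ?_, P, hyP, hspan⟩
  · rw [← hK] at he
    have h1 : e ∈ Fr 𝒜 φ α v K 0 := he
    have := Fr_mul h1 (Fr_of (K := K) (hA i0))
    rwa [zero_add] at this
  · exact integral_of_gcd P hspan fun i => ⟨A i, hyP i⟩

/-- one half of the comparison of two linear systems without base points -/
theorem half [Algebra.FiniteType k R] [IsIntegrallyClosed R] {t : K} (ht : Transcendental k t)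
    (hK : KF 𝒜 φ α v K = k⟮t⟯) {l l' p q n0 : ℕ} (hp : 0 < p) (A : Fin l → R)
    (hA : ∀ i, A i ∈ Sp 𝒜 φ α v p) (i0 : Fin l) (hi0 : A i0 ≠ 0)
    (hlarge : ∀ n, n0 ≤ n → ∀ x ∈ 𝒜 (n • v), ∃ r : Fin l → R, (∀ i, r i ∈ 𝒜 ((n - p) • v)) ∧
      x = ∑ i, A i * r i)
    (hfd : ∀ u, Module.Finite k (𝒜 u))
    {y : K} (hy : y ∈ Fr 𝒜 φ α v K p) (hy0 : y ≠ 0) (P : Fin l → k[X])
    (hP : ∀ i, algebraMap R K (A i) = y * aeval t (P i))
    (B : Fin l' → R) (hB : ∀ i, B i ∈ Sp 𝒜 φ α v q) {y' : K} (Q : Fin l' → k[X])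
    (hQ : ∀ i, algebraMap R K (B i) = y' * aeval t (Q i)) (hQs : Ideal.span (Set.range Q) = ⊤) :
    ∃ H : k[X], y' ^ p = y ^ q * aeval t H := by
  have hK' : ∀ x ∈ Fr 𝒜 φ α v K 0, x ∈ k⟮t⟯ := fun x hx => by
    rw [← hK]; exact hx
  choose H hH using fun j => compare ht hK' hp A hA i0 hi0 hlarge hfd hy hy0 P hP (hB j)
  have h1 := Ideal.span_pow_eq_top _ hQs p
  have h2 : (fun x => x ^ p) '' Set.range Q = Set.range fun j => Q j ^ p := by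
    rw [← Set.range_comp]; rfl
  rw [h2] at h1
  obtain ⟨c, hc⟩ := Ideal.mem_span_range_iff_exists_fun.1 (h1 ▸ (Submodule.mem_top : (1 : k[X]) ∈ ⊤))
  refine ⟨∑ j, c j * H j, ?_⟩
  have h3 : y' ^ p = ∑ j, aeval t (c j) * (y' ^ p * aeval t (Q j ^ p)) := by
    have h4 : ∀ j, aeval t (c j) * (y' ^ p * aeval t (Q j ^ p)) =
        y' ^ p * aeval t (c j * Q j ^ p) := fun j => by rw [map_mul]; ring
    rw [Finset.sum_congr rfl fun j _ => h4 j, ← Finset.mul_sum, ← map_sum, hc, map_one, mul_one]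
  rw [h3, map_sum, Finset.mul_sum]
  refine Finset.sum_congr rfl fun j _ => ?_
  have h5 : y' ^ p * aeval t (Q j ^ p) = y ^ q * aeval t (H j) := by
    rw [map_pow, ← mul_pow, ← hQ, hH]
  rw [h5, map_mul]
  ring

/-- **Sections of degree one from an extremal point or rational curve.** -/
theorem core [Algebra.FiniteType k R] [IsIntegrallyClosed R] [Finite G] {deg : Λ →+ ℤ}
    (hdeg : ∀ u, ∀ x ∈ 𝒜 u, x ≠ 0 → 0 ≤ deg u) (hfd : ∀ u, Module.Finite k (𝒜 u)) {ψ : Λ →+ Γ}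
    (hψ : ∀ u, ∀ x ∈ 𝒜 u, x ≠ 0 → 0 ≤ ψ u)
    (hφ : ∀ g u, ∀ x ∈ 𝒜 u, φ g x ∈ 𝒜 (α g u)) (hα : ∀ g u, deg (α g u) = deg u)
    (hinj : ∀ u, ψ u = 0 → deg u = 0 → u = 0)
    (hpt : ∃ u, ψ u = 0 ∧ 0 < deg u ∧ ∃ x ∈ 𝒜 u, x ≠ 0) {p q : ℕ} (hp : 0 < p) (hq : 0 < q)
    (hpq : Nat.Coprime p q) (hgp : Gen 𝒜 deg φ p) (hgq : Gen 𝒜 deg φ q) {τ : K}
    (hτ : Transcendental k τ)
    (hfr : ∀ u, ψ u = 0 → ∀ a ∈ 𝒜 u, ∀ b ∈ 𝒜 u, b ≠ 0 →
      algebraMap R K a / algebraMap R K b ∈ k⟮τ⟯) :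
    ∃ (v : Λ) (s : R), ψ v = 0 ∧ deg v = 1 ∧ InvDeg 𝒜 deg φ 1 s ∧
      ((decompose 𝒜 s v : 𝒜 v) : R) ≠ 0 := by
  have : IsNoetherianRing R := Algebra.FiniteType.isNoetherianRing k R
  obtain ⟨l, a, ha, hra, i0, hi0⟩ := exists_fam hψ hpt hgp
  obtain ⟨l', b, hb, hrb, j0, hj0⟩ := exists_fam hψ hpt hgq
  obtain ⟨up, hup, hupd⟩ := exists_comp hψ (ha i0).1 hi0
  obtain ⟨uq, huq, huqd⟩ := exists_comp hψ (hb j0).1 hj0
  -- the weight of degree one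
  obtain ⟨v, hv, hv1⟩ : ∃ v, ψ v = 0 ∧ deg v = 1 := by
    have h1 := Nat.gcd_eq_gcd_ab p q
    rw [hpq] at h1
    refine ⟨Nat.gcdA p q • up + Nat.gcdB p q • uq, ?_, ?_⟩
    · rw [map_add, map_zsmul, map_zsmul, hup, huq, smul_zero, smul_zero, add_zero]
    · rw [map_add, map_zsmul, map_zsmul, hupd, huqd, smul_eq_mul, smul_eq_mul]
      push_cast at h1
      rw [h1]
      ring
  set A : Fin l → R := fun i => proj 𝒜 ψ hψ (a i) with hAdef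
  set B : Fin l' → R := fun i => proj 𝒜 ψ hψ (b i) with hBdef
  have hA : ∀ i, A i ∈ Sp 𝒜 φ α v p := fun i => proj_mem_Sp hψ hφ hinj hv hv1 (ha i)
  have hB : ∀ i, B i ∈ Sp 𝒜 φ α v q := fun i => proj_mem_Sp hψ hφ hinj hv hv1 (hb i)
  have hle : KF 𝒜 φ α v K ≤ k⟮τ⟯ := by
    rintro x ⟨m, c, hc, d, hd, hd0, rfl⟩
    exact hfr (m • v) (by rw [map_nsmul, hv, smul_zero]) c (by
      have := hc.1
      rwa [add_zero] at this) d hd.1 hd0
  obtain ⟨z, hz, hz0⟩ : ∃ z ∈ Sp 𝒜 φ α v 1, z ≠ 0 := by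
    rcases luroth hτ _ hle with hK | ⟨t, ht, hK⟩
    · -- an extremal point
      have hA0 : algebraMap R K (A i0) ≠ 0 := map_ne hi0
      have hB0 : algebraMap R K (B j0) ≠ 0 := map_ne hj0
      have h1 : algebraMap R K (B j0) ^ p / algebraMap R K (A i0) ^ q ∈ KF 𝒜 φ α v K := by
        have h2 := Fr_pow (Fr_of (K := K) (hB j0)) p
        rw [mul_comm] at h2
        exact Fr_div (m := 0) h2 (Fr_pow (Fr_of (hA i0)) q) (pow_ne_zero _ hA0)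
      rw [hK] at h1
      obtain ⟨c, hc⟩ := IntermediateField.mem_bot.1 h1
      refine exists_one (K := K) hp hq hpq (Fr_of (hA i0)) hA0 isIntegral_algebraMap
        (Fr_of (hB j0)) hB0 (c := c) ?_
      rw [hc, div_mul_cancel₀ _ (pow_ne_zero _ hA0)]
    · obtain ⟨y, hy, hy0, hyi, P, hP, hPs⟩ := exists_y ht hK A hA i0 hi0
      obtain ⟨y', hy', hy0', hyi', Q, hQ, hQs⟩ := exists_y ht hK B hB j0 hj0
      obtain ⟨n0, hn0⟩ := large_ext hdeg hψ hφ hinj hv hv1 a ha hra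
      obtain ⟨n0', hn0'⟩ := large_ext hdeg hψ hφ hinj hv hv1 b hb hrb
      obtain ⟨H, hH⟩ := half ht hK hp A hA i0 hi0 hn0 hfd hy hy0 P hP B hB Q hQ hQs
      obtain ⟨H', hH'⟩ := half ht hK hq B hB j0 hj0 hn0' hfd hy' hy0' Q hQ A hA P hP hPs
      have h1 : aeval t (H * H') = aeval t (1 : k[X]) := by
        have h2 : y' ^ p * (aeval t (H * H')) = y' ^ p * 1 := by
          rw [map_mul, mul_one]
          conv_rhs => rw [hH, hH']
          ring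
        rw [mul_left_cancel₀ (pow_ne_zero _ hy0') h2, map_one]
      have h2 : H * H' = 1 := (transcendental_iff_injective.1 ht) h1
      obtain ⟨c, -, hc⟩ := Polynomial.isUnit_iff.1 (IsUnit.of_mul_eq_one _ h2)
      refine exists_one (K := K) hp hq hpq hy hy0 hyi hy' hy0' (c := c) ?_
      rw [hH, ← hc, aeval_C, mul_comm]
  obtain ⟨s, hs, hs0⟩ := exists_sum hφ hα hv1 hz hz0
  exact ⟨v, s, hv, hv1, hs, hs0⟩

end

end Pool.Agent.H895.CR
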