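import Pool.Agent.H895.CR.Base

/-!
# Semi-invariants of extremal weight and their fractions
-/

set_option autoImplicit false
set_option linter.unusedSectionVars false

namespace Pool.Agent.H895.CR

open DirectSum
open Pool.Agent.Results.MP_954e53_ag.TorusFixedPoint (InDeg InvDeg comp_of_mem eq_of_mem comp_add
  comp_sum comp_map inDeg_of_mem inDeg_sum)

variable {k R Λ : Type} [Field k] [CommRing R] [Algebra k R] [AddCommGroup Λ] [DecidableEq Λ]
  {G : Type} [Group G]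

/-- the elements of weight `n • v` which are fixed by the elements of `G` fixing `v` -/
def Sp (𝒜 : Λ → Submodule k R) (φ : G →* (R ≃ₐ[k] R)) (α : G → (Λ ≃+ Λ)) (v : Λ) (n : ℕ) :
    Submodule k R where
  carrier := {x | x ∈ 𝒜 (n • v) ∧ ∀ g, α g v = v → φ g x = x}
  add_mem' := fun {a b} ha hb => ⟨Submodule.add_mem _ ha.1 hb.1, fun g hg => by
    rw [map_add, ha.2 g hg, hb.2 g hg]⟩
  zero_mem' := ⟨Submodule.zero_mem _, fun g _ => map_zero _⟩
  smul_mem' := fun c a ha => ⟨Submodule.smul_mem _ _ ha.1, fun g hg => by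
    rw [map_smul, ha.2 g hg]⟩

section

variable {𝒜 : Λ → Submodule k R} [GradedAlgebra 𝒜] {φ : G →* (R ≃ₐ[k] R)} {α : G → (Λ ≃+ Λ)}
  {v : Λ}

theorem mem_Sp {n : ℕ} {x : R} : x ∈ Sp 𝒜 φ α v n ↔ x ∈ 𝒜 (n • v) ∧ ∀ g, α g v = v → φ g x = x :=
  Iff.rfl

theorem Sp_mul {m n : ℕ} {a b : R} (ha : a ∈ Sp 𝒜 φ α v m) (hb : b ∈ Sp 𝒜 φ α v n) :
    a * b ∈ Sp 𝒜 φ α v (m + n) := by
  refine ⟨?_, fun g hg => by rw [map_mul, ha.2 g hg, hb.2 g hg]⟩
  rw [add_smul]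
  exact SetLike.mul_mem_graded ha.1 hb.1

theorem Sp_one : (1 : R) ∈ Sp 𝒜 φ α v 0 := by
  refine ⟨?_, fun g _ => map_one _⟩
  rw [zero_smul]
  exact SetLike.one_mem_graded 𝒜

theorem Sp_pow {m : ℕ} {a : R} (ha : a ∈ Sp 𝒜 φ α v m) (j : ℕ) :
    a ^ j ∈ Sp 𝒜 φ α v (j * m) := by
  refine ⟨?_, fun g hg => by rw [map_pow, ha.2 g hg]⟩
  rw [mul_smul]
  exact SetLike.pow_mem_graded j ha.1

end

/-- the fractions of degree `n` of semi-invariants of extremal weight -/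
def Fr (𝒜 : Λ → Submodule k R) (φ : G →* (R ≃ₐ[k] R)) (α : G → (Λ ≃+ Λ)) (v : Λ) (K : Type)
    [Field K] [Algebra R K] (n : ℕ) : Set K :=
  {x | ∃ m, ∃ a ∈ Sp 𝒜 φ α v (m + n), ∃ b ∈ Sp 𝒜 φ α v m, b ≠ 0 ∧
    x = algebraMap R K a / algebraMap R K b}

section

variable {𝒜 : Λ → Submodule k R} [GradedAlgebra 𝒜] {φ : G →* (R ≃ₐ[k] R)} {α : G → (Λ ≃+ Λ)}
  {v : Λ} {K : Type} [Field K] [Algebra R K] [IsDomain R] [IsFractionRing R K]


theorem map_ne {b : R} (hb : b ≠ 0) : (algebraMap R K) b ≠ 0 := by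
  rw [Ne, FaithfulSMul.algebraMap_eq_zero_iff]
  exact hb

theorem Fr_of {n : ℕ} {a : R} (ha : a ∈ (Sp 𝒜 φ α v) n) : (algebraMap R K) a ∈ (Fr 𝒜 φ α v K) n :=
  ⟨0, a, by rw [zero_add]; exact ha, 1, Sp_one, one_ne_zero, by rw [map_one, div_one]⟩

theorem Fr_mul {m n : ℕ} {x y : K} (hx : x ∈ (Fr 𝒜 φ α v K) m) (hy : y ∈ (Fr 𝒜 φ α v K) n) : x * y ∈ (Fr 𝒜 φ α v K) (m + n) := by
  obtain ⟨s, a, ha, b, hb, hb0, rfl⟩ := hx
  obtain ⟨s', a', ha', b', hb', hb0', rfl⟩ := hy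
  refine ⟨s + s', a * a', ?_, b * b', Sp_mul hb hb', mul_ne_zero hb0 hb0', ?_⟩
  · have := Sp_mul ha ha'
    rwa [show s + m + (s' + n) = s + s' + (m + n) by ring] at this
  · rw [map_mul, map_mul, div_mul_div_comm]

theorem Fr_div {m n : ℕ} {x y : K} (hx : x ∈ (Fr 𝒜 φ α v K) (n + m)) (hy : y ∈ (Fr 𝒜 φ α v K) n) (hy0 : y ≠ 0) :
    x / y ∈ (Fr 𝒜 φ α v K) m := by
  obtain ⟨s, a, ha, b, hb, hb0, rfl⟩ := hx
  obtain ⟨s', a', ha', b', hb', hb0', rfl⟩ := hy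
  have ha0' : a' ≠ 0 := by
    rintro rfl
    rw [map_zero, zero_div] at hy0
    exact hy0 rfl
  refine ⟨s + (s' + n), a * b', ?_, b * a', Sp_mul hb ha', mul_ne_zero hb0 ha0', ?_⟩
  · have := Sp_mul ha hb'
    rwa [show s + (n + m) + s' = s + (s' + n) + m by ring] at this
  · rw [map_mul, map_mul, div_div_div_eq]

theorem Fr_add {n : ℕ} {x y : K} (hx : x ∈ (Fr 𝒜 φ α v K) n) (hy : y ∈ (Fr 𝒜 φ α v K) n) : x + y ∈ (Fr 𝒜 φ α v K) n := by
  obtain ⟨s, a, ha, b, hb, hb0, rfl⟩ := hx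
  obtain ⟨s', a', ha', b', hb', hb0', rfl⟩ := hy
  refine ⟨s + s', a * b' + b * a', ?_, b * b', Sp_mul hb hb', mul_ne_zero hb0 hb0', ?_⟩
  · refine Submodule.add_mem _ ?_ ?_
    · have := Sp_mul ha hb'
      rwa [show s + n + s' = s + s' + n by ring] at this
    · have := Sp_mul hb ha'
      rwa [show s + (s' + n) = s + s' + n by ring] at this
  · rw [map_add, map_mul, map_mul, map_mul, div_add_div _ _ (map_ne hb0) (map_ne hb0')]

theorem Fr_pow {n : ℕ} {x : K} (hx : x ∈ (Fr 𝒜 φ α v K) n) (j : ℕ) : x ^ j ∈ (Fr 𝒜 φ α v K) (j * n) := by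
  induction j with
  | zero =>
    rw [pow_zero, zero_mul]
    have := Fr_of (K := K) (Sp_one (𝒜 := 𝒜) (φ := φ) (α := α) (v := v))
    rwa [map_one] at this
  | succ j ih =>
    rw [pow_succ, Nat.succ_mul]
    exact Fr_mul ih hx

theorem Fr_int [IsIntegrallyClosed R] {n : ℕ} {x : K} (hx : x ∈ (Fr 𝒜 φ α v K) n) (h : IsIntegral R x) :
    ∃ s ∈ (Sp 𝒜 φ α v) n, (algebraMap R K) s = x := by
  obtain ⟨y, rfl⟩ := (IsIntegrallyClosed.isIntegral_iff (K := K)).1 h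
  obtain ⟨m, a, ha, b, hb, hb0, hxy⟩ := hx
  have h1 : b * y = a := by
    apply FaithfulSMul.algebraMap_injective R K
    rw [map_mul, hxy, mul_div_cancel₀ _ (map_ne hb0)]
  refine ⟨y, ⟨?_, fun g hg => ?_⟩, rfl⟩
  · apply mem_of_comp
    intro w hw
    have h2 := DirectSum.coe_decompose_mul_add_of_left_mem 𝒜 (b := y) (i := m • v) (j := w) hb.1
    rw [h1] at h2
    have h3 := comp_of_mem 𝒜 ha.1 (m • v + w)
    rw [if_neg (by
      rw [add_smul]
      intro h4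
      exact hw (add_left_cancel h4).symm)] at h3
    rw [h3] at h2
    exact (mul_eq_zero.1 h2.symm).resolve_left hb0
  · have h2 := congrArg (φ g) h1
    rw [map_mul, ha.2 g hg, hb.2 g hg, ← h1] at h2
    exact mul_left_cancel₀ hb0 h2

variable (𝒜 φ α v K) [Algebra k K] [IsScalarTower k R K]

/-- the field of fractions of degree zero -/
noncomputable def KF : IntermediateField k K where
  carrier := (Fr 𝒜 φ α v K) 0
  mul_mem' := fun {a b} ha hb => by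
    have := Fr_mul ha hb
    rwa [add_zero] at this
  add_mem' := fun {a b} ha hb => Fr_add ha hb
  one_mem' := by
    have := Fr_of (K := K) (Sp_one (𝒜 := 𝒜) (φ := φ) (α := α) (v := v))
    rwa [map_one] at this
  zero_mem' := by
    have := Fr_of (K := K) (Submodule.zero_mem (Sp 𝒜 φ α v 0))
    rwa [map_zero] at this
  algebraMap_mem' := fun c => by
    have h1 : algebraMap k R c ∈ (Sp 𝒜 φ α v) 0 := by
      rw [Algebra.algebraMap_eq_smul_one]
      exact Submodule.smul_mem _ _ Sp_one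
    have := Fr_of (K := K) h1
    rwa [← IsScalarTower.algebraMap_apply] at this
  inv_mem' := fun x hx => by
    by_cases h0 : x = 0
    · rw [h0, inv_zero, ← h0]; exact hx
    · have h1 : (1 : K) ∈ (Fr 𝒜 φ α v K) (0 + 0) := by
        have := Fr_of (K := K) (Sp_one (𝒜 := 𝒜) (φ := φ) (α := α) (v := v))
        rwa [map_one] at this
      have := Fr_div h1 hx h0
      rwa [one_div] at this

theorem mem_KF {x : K} : x ∈ KF 𝒜 φ α v K ↔ x ∈ (Fr 𝒜 φ α v K) 0 := Iff.rfl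

end

end Pool.Agent.H895.CR
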