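import Mathlib

/-!
# Rational functions of one element
-/

set_option autoImplicit false
set_option linter.unusedSectionVars false

namespace Pool.Agent.H895.CR

open Polynomial IntermediateField

/-- common denominator and greatest common divisor -/
theorem exists_gcd {k K : Type} [Field k] [Field K] [Algebra k K] {t : K} (ht : Transcendental k t)
    {l : ℕ} (x : Fin l → K) (hx : ∀ i, x i ∈ k⟮t⟯) (i0 : Fin l) (h0 : x i0 ≠ 0) :
    ∃ e : K, e ∈ k⟮t⟯ ∧ e ≠ 0 ∧ ∃ P : Fin l → k[X], (∀ i, x i = e * aeval t (P i)) ∧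
      Ideal.span (Set.range P) = ⊤ := by
  classical
  have hinj : ∀ f : k[X], aeval t f = 0 → f = 0 := fun f hf => by
    by_contra h
    exact ht ⟨f, h, hf⟩
  have h1 : ∀ i, ∃ r s : k[X], s ≠ 0 ∧ x i = aeval t r / aeval t s := by
    intro i
    obtain ⟨r, s, h⟩ := (mem_adjoin_simple_iff k (x i)).1 (hx i)
    by_cases hs : s = 0
    · refine ⟨0, 1, one_ne_zero, ?_⟩
      rw [h, hs]
      simp
    · exact ⟨r, s, hs, h⟩
  choose r s hs hrs using h1
  let Q : k[X] := ∏ j, s j
  have hQ : aeval t Q ≠ 0 := fun h => Finset.prod_ne_zero_iff.2 (fun j _ => hs j) (hinj _ h)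
  let P' : Fin l → k[X] := fun i => r i * ∏ j ∈ Finset.univ.erase i, s j
  have hP' : ∀ i, x i * aeval t Q = aeval t (P' i) := by
    intro i
    have h2 : Q = s i * ∏ j ∈ Finset.univ.erase i, s j :=
      (Finset.mul_prod_erase _ _ (Finset.mem_univ i)).symm
    have h3 : aeval t (s i) ≠ 0 := fun h => hs i (hinj _ h)
    rw [h2, hrs i, map_mul, map_mul, ← mul_assoc, div_mul_cancel₀ _ h3]
  let I : Ideal k[X] := Ideal.span (Set.range P')
  let d : k[X] := Submodule.IsPrincipal.generator I
  have hd : I = Ideal.span {d} := (Ideal.span_singleton_generator I).symm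
  have hPi0 : P' i0 ≠ 0 := by
    intro h
    have := hP' i0
    rw [h, map_zero] at this
    exact (mul_ne_zero h0 hQ) this
  have hdvd : ∀ i, ∃ q, P' i = d * q := by
    intro i
    have : P' i ∈ I := Ideal.subset_span ⟨i, rfl⟩
    rw [hd, Ideal.mem_span_singleton] at this
    exact this
  choose P hP using hdvd
  have hd0 : d ≠ 0 := by
    intro h
    apply hPi0
    rw [hP i0, h, zero_mul]
  have hdt : aeval t d ≠ 0 := fun h => hd0 (hinj _ h)
  refine ⟨aeval t d / aeval t Q, ?_, div_ne_zero hdt hQ, P, fun i => ?_, ?_⟩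
  · exact (mem_adjoin_simple_iff k _).2 ⟨d, Q, rfl⟩
  · rw [div_mul_eq_mul_div, ← map_mul, ← hP i, ← hP' i, mul_div_cancel_right₀ _ hQ]
  · rw [Ideal.eq_top_iff_one]
    have h2 : d ∈ I := by rw [hd]; exact Ideal.mem_span_singleton_self d
    obtain ⟨c, hc⟩ := Ideal.mem_span_range_iff_exists_fun.1 h2
    have h3 : d * ∑ i, c i * P i = d * 1 := by
      rw [mul_one, Finset.mul_sum]
      conv_rhs => rw [← hc]
      refine Finset.sum_congr rfl fun i _ => ?_
      rw [hP i]
      ring
    have h4 := mul_left_cancel₀ hd0 h3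
    rw [← h4]
    exact Ideal.mem_span_range_iff_exists_fun.2 ⟨c, rfl⟩

/-- if the polynomials `P i` have no common divisor and all `y P_i (t)` lie in `R` then `y` is
integral over `R` -/
theorem integral_of_gcd {k R K : Type} [Field k] [CommRing R] [Algebra k R] [Field K] [Algebra k K]
    [Algebra R K] [IsScalarTower k R K] {t y : K} {l : ℕ} (P : Fin l → k[X])
    (hP : Ideal.span (Set.range P) = ⊤)
    (h : ∀ i, ∃ r : R, algebraMap R K r = y * aeval t (P i)) : IsIntegral R y := by
  classical
  obtain ⟨c, hc⟩ := Ideal.mem_span_range_iff_exists_fun.1 (hP ▸ (Submodule.mem_top : (1 : k[X]) ∈ ⊤))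
  obtain ⟨i1, hi1⟩ : ∃ i, P i ≠ 0 := by
    by_contra hcon
    push Not at hcon
    simp [hcon] at hc
  set D : ℕ := ∑ i, (c i).natDegree + (P i1).natDegree with hD
  let N : Submodule R K := Submodule.span R (Set.range fun j : Fin (D + 1) => t ^ (j : ℕ))
  have hN : ∀ f : k[X], f.natDegree ≤ D → aeval t f ∈ N := by
    intro f hf
    rw [aeval_eq_sum_range' (Nat.lt_succ_of_le hf)]
    refine Submodule.sum_mem _ fun j hj => ?_
    have h1 : f.coeff j • t ^ j = algebraMap k R (f.coeff j) • t ^ j := by
      rw [Algebra.smul_def, Algebra.smul_def, ← IsScalarTower.algebraMap_apply]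
    rw [h1]
    exact Submodule.smul_mem _ _ (Submodule.subset_span ⟨⟨j, Finset.mem_range.1 hj⟩, rfl⟩)
  refine isIntegral_of_smul_mem_submodule N ?_ ?_ y ?_
  · intro h0
    have h1 : (1 : K) ∈ N := by
      have := hN 1 (by simp)
      rwa [map_one] at this
    rw [h0, Submodule.mem_bot] at h1
    exact one_ne_zero h1
  · exact Submodule.fg_span (Set.finite_range _)
  · intro n hn
    have key : ∀ i, ∀ f : k[X], f.natDegree ≤ D → y * aeval t (P i * f) ∈ N := by
      intro i f hf
      obtain ⟨r, hr⟩ := h i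
      rw [map_mul, ← mul_assoc, ← hr, ← Algebra.smul_def]
      exact Submodule.smul_mem _ _ (hN f hf)
    induction hn using Submodule.span_induction with
    | mem x hx =>
      obtain ⟨j, rfl⟩ := hx
      have h1 : (X : k[X]) ^ (j : ℕ) = P i1 * (X ^ (j : ℕ) / P i1) +
          ∑ i, P i * (c i * (X ^ (j : ℕ) % P i1)) := by
        have h2 : ∑ i, P i * (c i * (X ^ (j : ℕ) % P i1)) = X ^ (j : ℕ) % P i1 := by
          have h3 : ∀ i, P i * (c i * (X ^ (j : ℕ) % P i1)) =
              (c i * P i) * (X ^ (j : ℕ) % P i1) := fun i => by ring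
          rw [Finset.sum_congr rfl fun i _ => h3 i, ← Finset.sum_mul, hc, one_mul]
        rw [h2]
        exact (EuclideanDomain.div_add_mod _ _).symm
      have h4 : y • t ^ (j : ℕ) = y * aeval t (P i1 * (X ^ (j : ℕ) / P i1)) +
          ∑ i, y * aeval t (P i * (c i * (X ^ (j : ℕ) % P i1))) := by
        rw [← Finset.mul_sum, ← mul_add, ← map_sum, ← map_add, ← h1, map_pow, aeval_X]
        rfl
      change y • t ^ (j : ℕ) ∈ N
      rw [h4]
      refine Submodule.add_mem _ (key _ _ ?_) (Submodule.sum_mem _ fun i _ => key _ _ ?_)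
      · refine (natDegree_le_natDegree (degree_div_le _ _)).trans ?_
        rw [natDegree_X_pow]
        exact Nat.lt_succ_iff.1 j.2
      · refine natDegree_mul_le.trans ?_
        have h5 : (c i).natDegree ≤ ∑ i, (c i).natDegree :=
          Finset.single_le_sum (f := fun i => (c i).natDegree) (fun _ _ => Nat.zero_le _)
            (Finset.mem_univ i)
        have h6 : (X ^ (j : ℕ) % P i1).natDegree ≤ (P i1).natDegree :=
          natDegree_le_natDegree (EuclideanDomain.mod_lt _ hi1).le
        omega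
    | zero => rw [smul_zero]; exact Submodule.zero_mem _
    | add a b _ _ ha hb => rw [smul_add]; exact Submodule.add_mem _ ha hb
    | smul r a _ ha => rw [smul_comm]; exact Submodule.smul_mem _ _ ha

/-- rational functions of `t` which are integral over the polynomials in `t` are polynomials -/
theorem poly_of_integral {k K : Type} [Field k] [Field K] [Algebra k K] {t : K}
    (ht : Transcendental k t) {h : K} (hh : h ∈ k⟮t⟯)
    (hint : (aeval t : k[X] →ₐ[k] K).toRingHom.IsIntegralElem h) :
    ∃ H : k[X], aeval t H = h := by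
  have hinj : Function.Injective (aeval t : k[X] →ₐ[k] K) := (transcendental_iff_injective).1 ht
  obtain ⟨r, s, hrs⟩ := (mem_adjoin_simple_iff k h).1 hh
  let _ : Algebra k[X] K := (aeval t : k[X] →ₐ[k] K).toRingHom.toAlgebra
  have hal : ∀ f : k[X], algebraMap k[X] K f = aeval t f := fun f => rfl
  have : FaithfulSMul k[X] K := (faithfulSMul_iff_algebraMap_injective _ _).2 hinj
  by_cases hs : s = 0
  · refine ⟨0, ?_⟩
    rw [hrs, hs]
    simp
  let Fq := FractionRing k[X]
  let j : Fq →+* K := IsFractionRing.lift (A := k[X]) (K := Fq) (g := algebraMap k[X] K) hinj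
  have hj : ∀ f : k[X], j (algebraMap k[X] Fq f) = aeval t f := fun f =>
    IsFractionRing.lift_algebraMap hinj f
  let w : Fq := algebraMap k[X] Fq r / algebraMap k[X] Fq s
  have hw : j w = h := by
    rw [map_div₀, hj, hj, hrs]
  have hwi : IsIntegral k[X] w := by
    obtain ⟨p, hp, hpe⟩ := hint
    refine ⟨p, hp, ?_⟩
    apply j.injective
    rw [map_zero, ← hpe, Polynomial.hom_eval₂, hw]
    congr 1
    ext1
    · ext a
      simp [hj]
    · simp [hj]
  obtain ⟨H, hH⟩ := (IsIntegrallyClosed.isIntegral_iff (K := Fq)).1 hwi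
  exact ⟨H, by rw [← hj, hH, hw]⟩

end Pool.Agent.H895.CR
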