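import Pool.Agent.H895.CR.Frac
import Pool.Agent.H895.CR.Poly

/-!
# Large degrees, and the comparison of two linear systems without base points
-/

set_option autoImplicit false
set_option linter.unusedSectionVars false

namespace Pool.Agent.H895.CR

open DirectSum Polynomial IntermediateField
open Pool.Agent.Results.MP_954e53_ag.TorusFixedPoint (InDeg InvDeg comp_of_mem eq_of_mem comp_add
  comp_sum comp_map inDeg_of_mem inDeg_sum)

variable {k R Λ : Type} [Field k] [CommRing R] [Algebra k R] [AddCommGroup Λ] [DecidableEq Λ]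

/-- elements of large degree lie in an ideal whose radical contains all elements of positive
degree -/
theorem exists_large [Algebra.FiniteType k R] (𝒜 : Λ → Submodule k R) [GradedAlgebra 𝒜]
    (deg : Λ →+ ℤ) (hdeg : ∀ u, ∀ x ∈ 𝒜 u, x ≠ 0 → 0 ≤ deg u) (I : Ideal R)
    (hI : ∀ u, 0 < deg u → ∀ x ∈ 𝒜 u, x ∈ I.radical) :
    ∃ n0 : ℕ, ∀ u, (n0 : ℤ) ≤ deg u → ∀ x ∈ 𝒜 u, x ∈ I := by
  classical
  obtain ⟨s, hs⟩ := (Algebra.FiniteType.out : (⊤ : Subalgebra k R).FG)
  let T : Finset R := s.biUnion fun x => (decompose 𝒜 x).support.image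
    fun u => ((decompose 𝒜 x u : 𝒜 u) : R)
  have hTw : ∀ w : T, ∃ u, (w : R) ∈ 𝒜 u ∧ (w : R) ≠ 0 := by
    rintro ⟨w, hw⟩
    obtain ⟨x, -, hx⟩ := Finset.mem_biUnion.1 hw
    obtain ⟨u, hu, rfl⟩ := Finset.mem_image.1 hx
    refine ⟨u, (decompose 𝒜 x u).2, ?_⟩
    have h1 : decompose 𝒜 x u ≠ 0 := by
      simpa [DFinsupp.mem_support_toFun] using hu
    intro h2
    exact h1 (Subtype.ext h2)
  choose wt hwt hw0 using hTw
  have hgen : ∀ x : R, ∃ f : MvPolynomial T k, MvPolynomial.aeval (fun w : T => (w : R)) f = x := by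
    intro x
    have h1 : Algebra.adjoin k (Set.range fun w : T => (w : R)) = ⊤ := by
      rw [eq_top_iff, ← hs]
      refine Algebra.adjoin_le fun y hy => ?_
      rw [SetLike.mem_coe, ← sum_support_decompose 𝒜 y]
      refine Subalgebra.sum_mem _ fun u hu => Algebra.subset_adjoin ?_
      exact ⟨⟨_, Finset.mem_biUnion.2 ⟨y, hy, Finset.mem_image.2 ⟨u, hu, rfl⟩⟩⟩, rfl⟩
    have h2 : x ∈ Algebra.adjoin k (Set.range fun w : T => (w : R)) := by rw [h1]; trivial
    rw [Algebra.adjoin_range_eq_range_aeval] at h2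
    exact h2
  -- exponents
  have hex : ∀ w : T, ∃ m : ℕ, 0 < deg (wt w) → (w : R) ^ m ∈ I := by
    intro w
    by_cases h : 0 < deg (wt w)
    · obtain ⟨m, hm⟩ := Ideal.mem_radical_iff.1 (hI _ h _ (hwt w))
      exact ⟨m, fun _ => hm⟩
    · exact ⟨0, fun h' => absurd h' h⟩
  choose m hm using hex
  have hd0 : ∀ w : T, 0 ≤ deg (wt w) := fun w => hdeg _ _ (hwt w) (hw0 w)
  refine ⟨(∑ w : T, (m w : ℤ) * deg (wt w) + 1).toNat, fun u hu x hx => ?_⟩
  have hu' : ∑ w : T, (m w : ℤ) * deg (wt w) + 1 ≤ deg u := (Int.self_le_toNat _).trans hu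
  obtain ⟨f, hf⟩ := hgen x
  have hmon : ∀ (e : T →₀ ℕ), (∏ w : T, (w : R) ^ e w) ∈ 𝒜 (∑ w : T, e w • wt w) := by
    intro e
    exact SetLike.prod_mem_graded (A := 𝒜) (fun w : T => e w • wt w) (fun w : T => (w : R) ^ e w)
      (fun w _ => SetLike.pow_mem_graded (e w) (hwt w))
  have hterm : ∀ (e : T →₀ ℕ), ∑ w : T, e w • wt w = u → (∏ w : T, (w : R) ^ e w) ∈ I := by
    intro e he
    by_contra hcon
    have h1 : ∀ w : T, (e w : ℤ) * deg (wt w) ≤ (m w : ℤ) * deg (wt w) := by
      intro w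
      rcases (hd0 w).lt_or_eq with h | h
      · have h2 : e w < m w := by
          by_contra h3
          push Not at h3
          apply hcon
          rw [← Finset.mul_prod_erase _ _ (Finset.mem_univ w)]
          refine Ideal.mul_mem_right _ _ ?_
          rw [← Nat.sub_add_cancel h3, pow_add]
          exact Ideal.mul_mem_left _ _ (hm w h)
        have h3 : (e w : ℤ) ≤ m w := by exact_mod_cast h2.le
        exact mul_le_mul_of_nonneg_right h3 h.le
      · rw [← h, mul_zero, mul_zero]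
    have h2 : deg u = ∑ w : T, (e w : ℤ) * deg (wt w) := by
      rw [← he, map_sum]
      refine Finset.sum_congr rfl fun w _ => ?_
      rw [map_nsmul, nsmul_eq_mul]
    have h3 := Finset.sum_le_sum fun (w : T) (_ : w ∈ Finset.univ) => h1 w
    omega
  have h1 : x = ((decompose 𝒜 x u : 𝒜 u) : R) := (decompose_of_mem_same 𝒜 hx).symm
  rw [h1, ← hf, MvPolynomial.aeval_def, MvPolynomial.eval₂_eq', comp_sum]
  refine Ideal.sum_mem _ fun e _ => ?_
  have h2 : algebraMap k R (MvPolynomial.coeff e f) * ∏ w : T, (w : R) ^ e w ∈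
      𝒜 (∑ w : T, e w • wt w) := by
    rw [← Algebra.smul_def]
    exact Submodule.smul_mem _ _ (hmon e)
  rw [comp_of_mem 𝒜 h2 u]
  split_ifs with h3
  · exact Ideal.mul_mem_left _ _ (hterm e h3)
  · exact Ideal.zero_mem _

section

variable {G : Type} [Group G] {𝒜 : Λ → Submodule k R} [GradedAlgebra 𝒜] {φ : G →* (R ≃ₐ[k] R)}
  {α : G → (Λ ≃+ Λ)} {v : Λ} {K : Type} [Field K] [Algebra R K] [IsDomain R] [IsFractionRing R K]
  [Algebra k K] [IsScalarTower k R K]

/-- the comparison -/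
theorem compare {t : K} (ht : Transcendental k t) (hK : ∀ x ∈ Fr 𝒜 φ α v K 0, x ∈ k⟮t⟯)
    {l p q n0 : ℕ} (hp : 0 < p) (A : Fin l → R) (hA : ∀ i, A i ∈ Sp 𝒜 φ α v p)
    (i0 : Fin l) (hi0 : A i0 ≠ 0)
    (hlarge : ∀ n, n0 ≤ n → ∀ x ∈ 𝒜 (n • v), ∃ r : Fin l → R, (∀ i, r i ∈ 𝒜 ((n - p) • v)) ∧
      x = ∑ i, A i * r i)
    (hfd : ∀ u, Module.Finite k (𝒜 u))
    {y : K} (hy : y ∈ Fr 𝒜 φ α v K p) (hy0 : y ≠ 0) (P : Fin l → k[X])
    (hP : ∀ i, algebraMap R K (A i) = y * aeval t (P i)) {b : R} (hb : b ∈ Sp 𝒜 φ α v q) :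
    ∃ H : k[X], algebraMap R K b ^ p = y ^ q * aeval t H := by
  classical
  set n : ℕ := n0 * p with hn
  have hn0 : n0 ≤ n := Nat.le_mul_of_pos_right _ hp
  set w0 : R := A i0 ^ n0 with hw0
  have hw0m : w0 ∈ 𝒜 (n • v) := (Sp_pow (hA i0) n0).1
  have hw00 : w0 ≠ 0 := pow_ne_zero _ hi0
  let _ : Algebra k[X] K := (aeval t : k[X] →ₐ[k] K).toRingHom.toAlgebra
  have hsm : ∀ (f : k[X]) (x : K), f • x = aeval t f * x := fun f x => rfl
  obtain ⟨s, hs⟩ := (hfd (n • v)).fg_top
  let W : Submodule k[X] K := Submodule.span k[X]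
    ((fun x : 𝒜 (n • v) => algebraMap R K (x : R)) '' (s : Set (𝒜 (n • v))))
  have hW : ∀ x ∈ 𝒜 (n • v), algebraMap R K x ∈ W := by
    intro x hx
    have h1 : (⟨x, hx⟩ : 𝒜 (n • v)) ∈ Submodule.span k (s : Set (𝒜 (n • v))) := by
      rw [hs]; trivial
    have h2 : ∀ z : 𝒜 (n • v), z ∈ Submodule.span k (s : Set (𝒜 (n • v))) →
        algebraMap R K (z : R) ∈ W := by
      intro z hz
      induction hz using Submodule.span_induction with
      | mem z hz => exact Submodule.subset_span ⟨z, hz, rfl⟩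
      | zero => rw [ZeroMemClass.coe_zero, map_zero]; exact Submodule.zero_mem _
      | add a b _ _ ha hb =>
        rw [Submodule.coe_add, map_add]
        exact Submodule.add_mem _ ha hb
      | smul c a _ ha =>
        have h3 : algebraMap R K ((c • a : 𝒜 (n • v)) : R) = (C c : k[X]) • algebraMap R K (a : R) := by
          rw [hsm, aeval_C, Submodule.coe_smul, Algebra.smul_def, map_mul,
            ← IsScalarTower.algebraMap_apply]
        rw [h3]
        exact Submodule.smul_mem _ _ ha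
    exact h2 _ h1
  have hE : ∀ j : ℕ, ∀ x ∈ 𝒜 ((n + j * p) • v), ∃ w ∈ W, algebraMap R K x = y ^ j * w := by
    intro j
    induction j with
    | zero =>
      intro x hx
      rw [zero_mul, add_zero] at hx
      exact ⟨_, hW x hx, by rw [pow_zero, one_mul]⟩
    | succ j ih =>
      intro x hx
      obtain ⟨r, hr, hxr⟩ := hlarge (n + (j + 1) * p) (by omega) x hx
      have h1 : n + (j + 1) * p - p = n + j * p := by
        rw [Nat.succ_mul]; omega
      rw [h1] at hr
      choose w hw hrw using fun i => ih (r i) (hr i)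
      refine ⟨∑ i, P i • w i, Submodule.sum_mem _ fun i _ => Submodule.smul_mem _ _ (hw i), ?_⟩
      rw [hxr, map_sum, Finset.mul_sum]
      refine Finset.sum_congr rfl fun i _ => ?_
      rw [map_mul, hP, hrw, hsm]
      ring
  set h : K := algebraMap R K b ^ p / y ^ q with hh
  have hyq : y ^ q ≠ 0 := pow_ne_zero _ hy0
  have hbx : ∀ x ∈ 𝒜 (n • v), h * algebraMap R K x ∈ W := by
    intro x hx
    have h1 : b ^ p * x ∈ 𝒜 ((n + q * p) • v) := by
      rw [add_comm, add_smul, mul_comm q p]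
      exact SetLike.mul_mem_graded (Sp_pow hb p).1 hx
    obtain ⟨w, hw, hbw⟩ := hE q _ h1
    rw [hh, div_mul_eq_mul_div, ← map_pow, ← map_mul, hbw, mul_div_cancel_left₀ _ hyq]
    exact hw
  have hint : IsIntegral k[X] h := by
    refine isIntegral_of_smul_mem_submodule W ?_ ?_ h ?_
    · intro h0
      have h1 := hW w0 hw0m
      rw [h0, Submodule.mem_bot] at h1
      exact map_ne hw00 h1
    · exact Submodule.fg_span (s.finite_toSet.image _)
    · intro x hx
      induction hx using Submodule.span_induction with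
      | mem x hx =>
        obtain ⟨z, -, rfl⟩ := hx
        exact hbx _ z.2
      | zero => rw [smul_zero]; exact Submodule.zero_mem _
      | add a b _ _ ha hb => rw [smul_add]; exact Submodule.add_mem _ ha hb
      | smul f a _ ha =>
        have h1 : h • f • a = f • h • a := by
          rw [hsm, hsm, smul_eq_mul, smul_eq_mul]; ring
        rw [h1]
        exact Submodule.smul_mem _ _ ha
  have h0 : h ∈ Fr 𝒜 φ α v K 0 := by
    have h1 : algebraMap R K b ^ p ∈ Fr 𝒜 φ α v K (q * p + 0) := by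
      rw [add_zero, mul_comm]
      exact Fr_pow (Fr_of hb) p
    exact Fr_div h1 (Fr_pow hy q) hyq
  obtain ⟨H, hH⟩ := poly_of_integral ht (hK h h0) hint
  refine ⟨H, ?_⟩
  rw [hH, hh, mul_div_cancel₀ _ hyq]

end

end Pool.Agent.H895.CR
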