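import Pool.Agent.H895.CR.Core

/-!
# The extremal ray
-/

set_option autoImplicit false
set_option linter.unusedSectionVars false

namespace Pool.Agent.H895.CR

open DirectSum Polynomial IntermediateField
open Pool.Agent.Results.MP_954e53_ag.TorusFixedPoint (InDeg InvDeg comp_of_mem eq_of_mem comp_add
  comp_sum comp_map inDeg_of_mem inDeg_sum)

variable {k R Λ : Type} [Field k] [CommRing R] [Algebra k R] [AddCommGroup Λ] [DecidableEq Λ]

/-- the weights are sums of finitely many weights -/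
theorem exists_weights [Algebra.FiniteType k R] (𝒜 : Λ → Submodule k R) [GradedAlgebra 𝒜] :
    ∃ (m : ℕ) (w : Fin m → Λ), (∀ j, ∃ x ∈ 𝒜 (w j), x ≠ 0) ∧
      ∀ u, ∀ x ∈ 𝒜 u, x ≠ 0 → ∃ e : Fin m → ℕ, u = ∑ j, e j • w j := by
  classical
  obtain ⟨s, hs⟩ := (Algebra.FiniteType.out : (⊤ : Subalgebra k R).FG)
  let T : Finset Λ := s.biUnion fun x => (decompose 𝒜 x).support
  let w : Fin T.card → Λ := fun j => (T.equivFin.symm j : Λ)
  have hTw : ∀ u ∈ T, ∃ x ∈ 𝒜 u, x ≠ 0 := by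
    intro u hu
    obtain ⟨x, -, hx⟩ := Finset.mem_biUnion.1 hu
    refine ⟨_, (decompose 𝒜 x u).2, fun h2 => ?_⟩
    have h1 : decompose 𝒜 x u ≠ 0 := by
      simpa [DFinsupp.mem_support_toFun] using hx
    exact h1 (Subtype.ext h2)
  have hcl : ∀ x : R, ∀ u, ((decompose 𝒜 x u : 𝒜 u) : R) ≠ 0 →
      u ∈ AddSubmonoid.closure (T : Set Λ) := by
    intro x
    have hx : x ∈ Algebra.adjoin k (s : Set R) := by rw [hs]; trivial
    induction hx using Algebra.adjoin_induction with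
    | mem x hx =>
      intro u hu
      refine AddSubmonoid.subset_closure (Finset.mem_biUnion.2 ⟨x, hx, ?_⟩)
      rw [DFinsupp.mem_support_iff]
      intro h
      exact hu (by rw [h]; rfl)
    | algebraMap c =>
      intro u hu
      have h1 : algebraMap k R c ∈ 𝒜 0 := SetLike.algebraMap_mem_graded 𝒜 c
      rw [comp_of_mem 𝒜 h1 u] at hu
      by_cases h : (0 : Λ) = u
      · rw [← h]; exact AddSubmonoid.zero_mem _
      · rw [if_neg h] at hu; exact absurd rfl hu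
    | add x y _ _ ihx ihy =>
      intro u hu
      by_cases h : ((decompose 𝒜 x u : 𝒜 u) : R) = 0
      · refine ihy u fun h' => hu ?_
        rw [comp_add, h, h', add_zero]
      · exact ihx u h
    | mul x y _ _ ihx ihy =>
      intro u hu
      rw [← sum_support_decompose 𝒜 x, ← sum_support_decompose 𝒜 y, Finset.sum_mul_sum,
        comp_sum] at hu
      obtain ⟨a, ha, hne⟩ := Finset.exists_ne_zero_of_sum_ne_zero hu
      rw [comp_sum] at hne
      obtain ⟨b, hb, hne⟩ := Finset.exists_ne_zero_of_sum_ne_zero hne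
      have h1 : ((decompose 𝒜 x a : 𝒜 a) : R) * ((decompose 𝒜 y b : 𝒜 b) : R) ∈ 𝒜 (a + b) :=
        SetLike.mul_mem_graded (decompose 𝒜 x a).2 (decompose 𝒜 y b).2
      rw [comp_of_mem 𝒜 h1 u] at hne
      by_cases h : a + b = u
      · rw [← h]
        rw [if_pos h] at hne
        exact AddSubmonoid.add_mem _ (ihx a (left_ne_zero_of_mul hne))
          (ihy b (right_ne_zero_of_mul hne))
      · rw [if_neg h] at hne; exact absurd rfl hne
  refine ⟨T.card, w, fun j => hTw _ (T.equivFin.symm j).2, fun u x hx hx0 => ?_⟩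
  have h1 := hcl x u (by rw [decompose_of_mem_same 𝒜 hx]; exact hx0)
  have hr : (T : Set Λ) = Set.range w := by
    ext y
    constructor
    · intro hy
      exact ⟨T.equivFin ⟨y, hy⟩, by simp [w]⟩
    · rintro ⟨i, rfl⟩
      exact (T.equivFin.symm i).2
  rw [hr] at h1
  have h2 : ∀ y ∈ AddSubmonoid.closure (Set.range w), ∃ e : Fin T.card → ℕ,
      y = ∑ j, e j • w j := by
    intro y hy
    induction hy using AddSubmonoid.closure_induction with
    | mem y hy =>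
      obtain ⟨i, rfl⟩ := hy
      exact ⟨Pi.single i 1, by simp [Pi.single_apply]⟩
    | zero => exact ⟨0, by simp⟩
    | add a b _ _ ha hb =>
      obtain ⟨e, rfl⟩ := ha
      obtain ⟨e', rfl⟩ := hb
      exact ⟨e + e', by simp [add_smul, Finset.sum_add_distrib]⟩
  exact h2 u h1

section lex

variable {n : ℕ}

/-- rational vectors with the lexicographic order -/
abbrev LQ (n : ℕ) : Type := Lex (Fin n → ℚ)

theorem lex_nonneg_smul {c : ℚ} (hc : 0 < c) {x : LQ n} (hx : 0 ≤ x) :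
    (0 : LQ n) ≤ toLex (fun i => c * ofLex x i) := by
  rcases hx.lt_or_eq with h | h
  · apply le_of_lt
    obtain ⟨i, hi, hlt⟩ := h
    refine ⟨i, fun j hj => ?_, ?_⟩
    · have h1 := hi j hj
      have h2 : (0 : ℚ) = ofLex x j := h1
      change (0 : ℚ) = c * ofLex x j
      rw [← h2, mul_zero]
    · have h2 : (0 : ℚ) < ofLex x i := hlt
      change (0 : ℚ) < c * ofLex x i
      exact mul_pos hc h2
  · rw [← h]
    apply le_of_eq
    apply ofLex.injective
    funext i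
    change (0 : ℚ) = c * 0
    rw [mul_zero]

end lex

variable {r : ℕ}

/-- **The extremal ray.** -/
theorem exists_ray {k R : Type} [Field k] [CommRing R] [Algebra k R] [Algebra.FiniteType k R]
    (𝒜 : (Fin r → ℤ) → Submodule k R) [GradedAlgebra 𝒜] {deg : (Fin r → ℤ) →+ ℤ}
    (hdeg : ∀ u, ∀ x ∈ 𝒜 u, x ≠ 0 → 0 ≤ deg u)
    (hdeg0 : ∀ u, deg u = 0 → ∀ x ∈ 𝒜 u, ∃ c : k, x = algebraMap k R c)
    (hne : ∃ u, 0 < deg u ∧ ∃ x ∈ 𝒜 u, x ≠ 0) {ι : Type} (δ : ι → Fin r → ℤ)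
    (hδ : ∀ i, deg (δ i) = 0) {ℓ : (Fin r → ℤ) →+ ℤ} (hℓ : ∀ i, ℓ (δ i) < 0) :
    ∃ ψ : (Fin r → ℤ) →+ LQ (r + 1), (∀ u, ∀ x ∈ 𝒜 u, x ≠ 0 → 0 ≤ ψ u) ∧
      (∀ u, ψ u = 0 → deg u = 0 → u = 0) ∧
      (∃ u, ψ u = 0 ∧ 0 < deg u ∧ ∃ x ∈ 𝒜 u, x ≠ 0) ∧ (∀ i, ψ (δ i) < 0) ∧
      ∀ u w, ψ u = 0 → deg u = 1 → 0 ≤ ψ w → ℓ u * deg w ≤ ℓ w := by
  classical
  obtain ⟨m, wt, hwt, hsum⟩ := exists_weights (k := k) 𝒜
  have hz : ∀ u, deg u = 0 → (∃ x ∈ 𝒜 u, x ≠ 0) → u = 0 := by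
    rintro u hu ⟨x, hx, hx0⟩
    obtain ⟨c, rfl⟩ := hdeg0 u hu x hx
    exact eq_of_mem 𝒜 hx (SetLike.algebraMap_mem_graded 𝒜 c) hx0
  let Φ : (Fin r → ℤ) → Fin (r + 1) → ℤ := fun u => Fin.cons (ℓ u) u
  have hΦ : ∀ u u', Φ (u + u') = Φ u + Φ u' := by
    intro u u'
    funext i
    refine Fin.cases ?_ (fun j => ?_) i
    · simp [Φ]
    · simp [Φ]
  have hΦ0 : ∀ u, Φ u = 0 → u = 0 := by
    intro u hu
    funext j
    have := congrFun hu j.succ
    simpa [Φ] using this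
  let ρ : (Fin r → ℤ) → LQ (r + 1) := fun u => toLex fun i => (Φ u i : ℚ) / (deg u : ℚ)
  -- weights of positive degree
  obtain ⟨j1, hj1⟩ : ∃ j, 0 < deg (wt j) := by
    by_contra hcon
    push Not at hcon
    obtain ⟨u, hu, x, hx, hx0⟩ := hne
    obtain ⟨e, he⟩ := hsum u x hx hx0
    have h1 : deg u ≤ 0 := by
      rw [he, map_sum]
      refine Finset.sum_nonpos fun j _ => ?_
      rw [map_nsmul, nsmul_eq_mul]
      exact mul_nonpos_of_nonneg_of_nonpos (by positivity) (hcon j)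
    omega
  obtain ⟨j0, hj0, hmin⟩ := (Finset.univ.filter fun j => 0 < deg (wt j)).exists_min_image
    (fun j => ρ (wt j)) ⟨j1, by simp [hj1]⟩
  have hd0 : 0 < deg (wt j0) := (Finset.mem_filter.1 hj0).2
  have hd0' : (0 : ℚ) < (deg (wt j0) : ℚ) := by exact_mod_cast hd0
  let ψ : (Fin r → ℤ) →+ LQ (r + 1) :=
    { toFun := fun u => toLex fun i => (Φ u i : ℚ) - (deg u : ℚ) * ofLex (ρ (wt j0)) i
      map_zero' := by
        apply ofLex.injective
        funext i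
        change ((Φ 0 i : ℤ) : ℚ) - ((deg 0 : ℤ) : ℚ) * _ = 0
        have h1 : Φ 0 = 0 := by
          have := hΦ 0 0
          rw [add_zero] at this
          exact (left_eq_add.1 this)
        rw [h1, map_zero]
        simp
      map_add' := fun u u' => by
        apply ofLex.injective
        funext i
        change ((Φ (u + u') i : ℤ) : ℚ) - ((deg (u + u') : ℤ) : ℚ) * _ =
          (((Φ u i : ℤ) : ℚ) - ((deg u : ℤ) : ℚ) * _) + (((Φ u' i : ℤ) : ℚ) - ((deg u' : ℤ) : ℚ) * _)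
        rw [hΦ, map_add, Pi.add_apply]
        push_cast
        ring }
  have hψ : ∀ u i, ofLex (ψ u) i = (Φ u i : ℚ) - (deg u : ℚ) * ofLex (ρ (wt j0)) i :=
    fun u i => rfl
  have hψw : ∀ j, 0 ≤ ψ (wt j) := by
    intro j
    obtain ⟨x, hx, hx0⟩ := hwt j
    rcases (hdeg _ x hx hx0).lt_or_eq with h | h
    · have h1 := hmin j (by simp [h])
      have h2 : 0 ≤ ρ (wt j) - ρ (wt j0) := sub_nonneg.2 h1
      have hdj : (0 : ℚ) < (deg (wt j) : ℚ) := by exact_mod_cast h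
      have h3 := lex_nonneg_smul hdj h2
      have h4 : ψ (wt j) = toLex (fun i => (deg (wt j) : ℚ) * ofLex (ρ (wt j) - ρ (wt j0)) i) := by
        apply ofLex.injective
        funext i
        rw [hψ]
        change _ = (deg (wt j) : ℚ) * ((Φ (wt j) i : ℚ) / (deg (wt j) : ℚ) - ofLex (ρ (wt j0)) i)
        rw [mul_sub, mul_div_cancel₀ _ hdj.ne']
      rw [h4]
      exact h3
    · rw [hz _ h.symm ⟨x, hx, hx0⟩, map_zero]
  refine ⟨ψ, fun u x hx hx0 => ?_, fun u hu hd => ?_, ⟨wt j0, ?_, hd0, hwt j0⟩, fun i => ?_,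
    fun u w hu hd hw => ?_⟩
  · obtain ⟨e, he⟩ := hsum u x hx hx0
    rw [he, map_sum]
    refine Finset.sum_nonneg fun j _ => ?_
    rw [map_nsmul]
    exact nsmul_nonneg (hψw j) _
  · apply hΦ0
    funext i
    have h1 : ofLex (ψ u) i = 0 := by rw [hu]; rfl
    rw [hψ, hd, Int.cast_zero, zero_mul, sub_zero] at h1
    exact_mod_cast h1
  · apply ofLex.injective
    funext i
    rw [hψ]
    change (Φ (wt j0) i : ℚ) - (deg (wt j0) : ℚ) * ((Φ (wt j0) i : ℚ) / (deg (wt j0) : ℚ)) = 0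
    rw [mul_div_cancel₀ _ hd0'.ne', sub_self]
  · refine ⟨0, fun j hj => absurd hj (Nat.not_lt_zero _), ?_⟩
    change ofLex (ψ (δ i)) 0 < 0
    rw [hψ, hδ, Int.cast_zero, zero_mul, sub_zero]
    change ((Fin.cons (ℓ (δ i)) (δ i) : Fin (r + 1) → ℤ) 0 : ℚ) < 0
    rw [Fin.cons_zero]
    exact_mod_cast hℓ i
  · have h1 : ofLex (ψ u) 0 = 0 := by rw [hu]; rfl
    have h2 : 0 ≤ ofLex (ψ w) 0 := by
      rcases hw.lt_or_eq with h | h
      · obtain ⟨i, hi, hlt⟩ := h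
        rcases eq_or_ne i 0 with h0 | h0
        · subst h0
          exact le_of_lt hlt
        · exact le_of_eq (hi 0 (Fin.pos_iff_ne_zero.2 h0))
      · rw [← h]; exact le_rfl
    rw [hψ] at h1 h2
    have e : ∀ x, (Φ x 0 : ℚ) = (ℓ x : ℚ) := fun x => by
      change ((Fin.cons (ℓ x) x : Fin (r + 1) → ℤ) 0 : ℚ) = _
      rw [Fin.cons_zero]
    rw [e, hd, Int.cast_one, one_mul] at h1
    rw [e] at h2
    have h3 : (ℓ u : ℚ) * (deg w : ℚ) ≤ (ℓ w : ℚ) := by
      have h4 : (ℓ u : ℚ) = ofLex (ρ (wt j0)) 0 := by linarith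
      rw [h4]
      linarith
    exact_mod_cast h3

end Pool.Agent.H895.CR
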