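import Pool.Agent.H895.CR.Ray

/-!
# Linearly independent sections
-/

set_option autoImplicit false
set_option linter.unusedSectionVars false

namespace Pool.Agent.H895.CR

open DirectSum Polynomial IntermediateField

variable {r : ℕ}

/-- a set of integral vectors on which no integral functional vanishes spans -/
theorem span_of_functional (U : Set (Fin r → ℤ))
    (h : ∀ ℓ : (Fin r → ℤ) →+ ℤ, (∀ u ∈ U, ℓ u = 0) → ℓ = 0) :
    Submodule.span ℚ ((fun (u : Fin r → ℤ) (i : Fin r) => (u i : ℚ)) '' U) = ⊤ := by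
  classical
  by_contra hne
  obtain ⟨f, hf, hker⟩ := Submodule.exists_le_ker_of_lt_top _ (lt_top_iff_ne_top.2 hne)
  -- clear denominators
  let c : Fin r → ℚ := fun i => f (Pi.single i 1)
  have hfc : ∀ x : Fin r → ℚ, f x = ∑ i, x i * c i := by
    intro x
    conv_lhs => rw [← Finset.univ_sum_single x]
    rw [map_sum]
    refine Finset.sum_congr rfl fun i _ => ?_
    have h1 : (Pi.single i (x i) : Fin r → ℚ) = x i • (Pi.single i 1 : Fin r → ℚ) := by
      rw [← Pi.single_smul, smul_eq_mul, mul_one]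
    rw [h1, map_smul, smul_eq_mul]
  let N : ℕ := ∏ i, (c i).den
  have hN : ∀ i, ∃ z : ℤ, (z : ℚ) = N * c i := by
    intro i
    refine ⟨(∏ j ∈ Finset.univ.erase i, ((c j).den : ℤ)) * (c i).num, ?_⟩
    have h1 : (N : ℚ) = (∏ j ∈ Finset.univ.erase i, ((c j).den : ℚ)) * (c i).den := by
      simp only [N]
      push_cast
      rw [Finset.prod_erase_mul _ _ (Finset.mem_univ i)]
    rw [h1]
    push_cast
    rw [mul_assoc]
    congr 1
    exact (Rat.den_mul_eq_num _).symm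
  choose z hz using hN
  have hN0 : (N : ℚ) ≠ 0 := by
    have : N ≠ 0 := Finset.prod_ne_zero_iff.2 fun i _ => (c i).den_nz
    exact_mod_cast this
  let ℓ : (Fin r → ℤ) →+ ℤ :=
    { toFun := fun u => ∑ i, u i * z i
      map_zero' := by simp
      map_add' := fun u v => by simp [add_mul, Finset.sum_add_distrib] }
  have hℓ : ∀ u : Fin r → ℤ, (ℓ u : ℚ) = N * f (fun i => (u i : ℚ)) := by
    intro u
    change ((∑ i, u i * z i : ℤ) : ℚ) = _
    rw [hfc, Finset.mul_sum]
    push_cast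
    refine Finset.sum_congr rfl fun i _ => ?_
    rw [hz]
    ring
  have h0 : ℓ = 0 := by
    apply h
    intro u hu
    have h1 : f (fun i => (u i : ℚ)) = 0 := hker (Submodule.subset_span ⟨u, hu, rfl⟩)
    have h2 := hℓ u
    rw [h1, mul_zero] at h2
    exact_mod_cast h2
  apply hf
  ext i
  have h1 := hℓ (Pi.single i 1)
  rw [h0] at h1
  have h2 : (fun j => ((Pi.single i 1 : Fin r → ℤ) j : ℚ)) = Pi.single i 1 := by
    funext j
    by_cases hj : j = i
    · subst hj; simp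
    · simp [hj]
  rw [h2] at h1
  have h3 : (N : ℚ) * f (Pi.single i 1) = 0 := by rw [← h1]; simp
  have h4 := (mul_eq_zero.1 h3).resolve_left hN0
  simpa using h4

/-- linearly independent weight vectors of degree one -/
theorem exists_indep {k R : Type} [Field k] [CommRing R] [Algebra k R]
    (𝒜 : (Fin r → ℤ) → Submodule k R) [GradedAlgebra 𝒜] {deg : (Fin r → ℤ) →+ ℤ}
    (hspan : ∀ ℓ : (Fin r → ℤ) →+ ℤ, (∀ u, ∀ x ∈ 𝒜 u, x ≠ 0 → ℓ u = 0) → ℓ = 0)
    (hmin : ∀ ℓ : (Fin r → ℤ) →+ ℤ, ∃ v, deg v = 1 ∧ (∃ x ∈ 𝒜 v, x ≠ 0) ∧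
      ∀ w, ∀ x ∈ 𝒜 w, x ≠ 0 → ℓ v * deg w ≤ ℓ w) :
    ∃ f : Fin r → R, LinearIndependent k f ∧ ∀ i, ∃ u, deg u = 1 ∧ f i ∈ 𝒜 u := by
  classical
  let U : Set (Fin r → ℤ) := {u | deg u = 1 ∧ ∃ x ∈ 𝒜 u, x ≠ 0}
  have hU : ∀ ℓ : (Fin r → ℤ) →+ ℤ, (∀ u ∈ U, ℓ u = 0) → ℓ = 0 := by
    intro ℓ hℓ
    apply hspan
    intro u x hx hx0
    obtain ⟨v, hv, hvx, hmv⟩ := hmin ℓ
    obtain ⟨v', hv', hvx', hmv'⟩ := hmin (-ℓ)
    have h1 := hmv u x hx hx0
    have h2 := hmv' u x hx hx0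
    rw [hℓ v ⟨hv, hvx⟩, zero_mul] at h1
    rw [AddMonoidHom.neg_apply, AddMonoidHom.neg_apply, hℓ v' ⟨hv', hvx'⟩, neg_zero, zero_mul] at h2
    omega
  have hs := span_of_functional U hU
  obtain ⟨b, hb, hbs, hli⟩ := exists_linearIndependent ℚ
    ((fun (u : Fin r → ℤ) (i : Fin r) => (u i : ℚ)) '' U)
  rw [hs] at hbs
  let B := Module.Basis.mk hli (by rw [Subtype.range_coe, hbs])
  have : Fintype b := FiniteDimensional.fintypeBasisIndex B
  have hcard : Fintype.card b = r := by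
    rw [← Module.finrank_eq_card_basis B]
    simp
  let e : Fin r ≃ b := (finCongr hcard.symm).trans (Fintype.equivFin b).symm
  have hch : ∀ i : Fin r, ∃ u ∈ U, (fun j => (u j : ℚ)) = (e i : Fin r → ℚ) := fun i => hb (e i).2
  choose u hu hue using hch
  have hinj : Function.Injective u := by
    intro i j hij
    apply e.injective
    apply Subtype.ext
    rw [← hue i, ← hue j, hij]
  choose f hf hf0 using fun i => (hu i).2
  refine ⟨f, ?_, fun i => ⟨u i, (hu i).1, hf i⟩⟩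
  have hind := (DirectSum.Decomposition.isInternal 𝒜).submodule_iSupIndep
  exact (hind.comp hinj).linearIndependent _ hf hf0

end Pool.Agent.H895.CR
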